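import Mathlib

set_option autoImplicit false

namespace Pool.Agent.Results.MP_903b9e_co.Mob

/-- The graph distance of the grid `ℤ^k` (the `ℓ₁` distance); adjacent means distance `1`. -/
def d {k : ℕ} (x y : Fin k → ℤ) : ℤ := ∑ i, |x i - y i|

/-- General position: no three distinct points `a, b, c` of `S` with `b` on a shortest
`a`–`c` path. -/
def GP {k : ℕ} (S : Set (Fin k → ℤ)) : Prop :=
  ∀ a ∈ S, ∀ b ∈ S, ∀ c ∈ S, a ≠ b → b ≠ c → a ≠ c → d a c ≠ d a b + d b c

/-- A legal move: one robot moves to an adjacent unoccupied vertex and the new set of occupied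
vertices is in general position. -/
def Move {k : ℕ} (A B : Set (Fin k → ℤ)) : Prop :=
  GP B ∧ ∃ x ∈ A, ∃ y, y ∉ A ∧ d x y = 1 ∧ B = insert y (A \ {x})

/-- Mobile general position set. -/
def Mobile {k : ℕ} (S : Set (Fin k → ℤ)) : Prop :=
  GP S ∧ ∃ s : ℕ → Set (Fin k → ℤ), s 0 = S ∧ (∀ n, Move (s n) (s (n + 1))) ∧ ∀ v, ∃ n, v ∈ s n

section aux

lemma exists_seq {α : Type} (r : α → α → Prop) (A : ℕ → α)
    (h : ∀ n, Relation.TransGen r (A n) (A (n + 1))) :
    ∃ s : ℕ → α, s 0 = A 0 ∧ (∀ n, r (s n) (s (n + 1))) ∧ ∀ n, ∃ m, s m = A n := by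
  have fin : ∀ x y, Relation.TransGen r x y → ∃ (l : ℕ) (p : ℕ → α), p 0 = x ∧ p (l + 1) = y ∧
      ∀ i ≤ l, r (p i) (p (i + 1)) := by
    intro x y hxy
    induction hxy with
    | @single y hr =>
      exact ⟨0, fun i => if i = 0 then x else y, by simp, by simp, fun i hi => by
        obtain rfl : i = 0 := by omega
        simpa using hr⟩
    | @tail y z _ hr ih =>
      obtain ⟨l, p, h0, h1, h2⟩ := ih
      refine ⟨l + 1, fun i => if i ≤ l + 1 then p i else z, by simpa using h0, by simp,
        fun i hi => ?_⟩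
      by_cases hil : i ≤ l
      · simpa [hi, hil] using h2 i hil
      · obtain rfl : i = l + 1 := by omega
        simpa [h1] using hr
  choose l p h0 h1 h2 using fun n => fin _ _ (h n)
  let nx : ℕ × ℕ → ℕ × ℕ := fun q => if q.2 < l q.1 then (q.1, q.2 + 1) else (q.1 + 1, 0)
  let st : ℕ → ℕ × ℕ := fun t => nx^[t] (0, 0)
  have hst : ∀ t, st (t + 1) = nx (st t) := fun t => Function.iterate_succ_apply' _ _ _
  have hle : ∀ t, (st t).2 ≤ l (st t).1 := by
    intro t
    induction t with
    | zero => simp [st]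
    | succ t ih =>
      rw [hst]
      simp only [nx]
      split_ifs with hh
      · exact hh
      · simp
  refine ⟨fun t => p (st t).1 (st t).2, by simpa [st] using h0 0, fun t => ?_, fun n => ?_⟩
  · beta_reduce
    rw [hst]
    simp only [nx]
    split_ifs with hh
    · exact h2 _ _ (hle t)
    · have e : (st t).2 = l (st t).1 := by have := hle t; omega
      have := h2 _ _ (hle t)
      rw [e, h1] at this
      rw [e, h0]
      exact this
  · suffices ∃ m, st m = (n, 0) by
      obtain ⟨m, hm⟩ := this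
      exact ⟨m, by simp only [hm]; exact h0 n⟩
    induction n with
    | zero => exact ⟨0, rfl⟩
    | succ n ih =>
      obtain ⟨m, hm⟩ := ih
      have : ∀ j ≤ l n, st (m + j) = (n, j) := by
        intro j
        induction j with
        | zero => intro _; exact hm
        | succ j ih2 =>
          intro hj
          rw [← add_assoc, hst, ih2 (by omega)]
          simp only [nx]
          rw [if_pos (by omega)]
      refine ⟨m + l n + 1, ?_⟩
      rw [hst, this _ le_rfl]
      simp [nx]

variable {k : ℕ}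

lemma btw_iff (a b c : Fin k → ℤ) :
    d a c = d a b + d b c ↔ ∀ i, (a i ≤ b i ∧ b i ≤ c i) ∨ (c i ≤ b i ∧ b i ≤ a i) := by
  unfold d
  rw [← Finset.sum_add_distrib]
  have hle : ∀ i ∈ (Finset.univ : Finset (Fin k)), |a i - c i| ≤ |a i - b i| + |b i - c i| :=
    fun i _ => abs_sub_le _ _ _
  rw [Finset.sum_eq_sum_iff_of_le hle]
  refine forall_congr' fun i => ?_
  simp only [Finset.mem_univ, true_imp_iff]
  rcases abs_cases (a i - c i) with h1 | h1 <;> rcases abs_cases (a i - b i) with h2 | h2 <;>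
    rcases abs_cases (b i - c i) with h3 | h3 <;> omega

/-- robust general position of a family of points -/
def Rob {ι : Type} (x : ι → Fin k → ℤ) : Prop :=
  (∀ a b, a ≠ b → ∃ i, x a i + 2 ≤ x b i ∨ x b i + 2 ≤ x a i) ∧
  ∀ a b c, a ≠ b → b ≠ c → a ≠ c →
    ∃ i, (x b i + 2 ≤ x a i ∧ x b i + 2 ≤ x c i) ∨ (x a i + 2 ≤ x b i ∧ x c i + 2 ≤ x b i)

/-- robots in `T` have been shifted by `e` -/
def cfg {ι : Type} [DecidableEq ι] (x : ι → Fin k → ℤ) (e : Fin k → ℤ) (T : Finset ι) :
    ι → Fin k → ℤ := fun a => if a ∈ T then x a + e else x a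

lemma cfg_bd {ι : Type} [DecidableEq ι] (x : ι → Fin k → ℤ) (e : Fin k → ℤ)
    (he : ∀ i, |e i| ≤ 1) (T T' : Finset ι) (a b : ι) (i : Fin k) (h : x a i + 2 ≤ x b i) :
    cfg x e T a i < cfg x e T' b i := by
  have := abs_le.1 (he i)
  unfold cfg
  split_ifs <;> (try simp only [Pi.add_apply]) <;> omega

lemma gp_cfg {ι : Type} [DecidableEq ι] (x : ι → Fin k → ℤ) (hx : Rob x) (e : Fin k → ℤ)
    (he : ∀ i, |e i| ≤ 1) (T : Finset ι) : GP (Set.range (cfg x e T)) := by
  rintro _ ⟨a, rfl⟩ _ ⟨b, rfl⟩ _ ⟨c, rfl⟩ h1 h2 h3 h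
  obtain ⟨i, hi⟩ := hx.2 a b c (fun h => h1 (h ▸ rfl)) (fun h => h2 (h ▸ rfl))
    (fun h => h3 (h ▸ rfl))
  have := (btw_iff _ _ _).1 h i
  rcases hi with ⟨p, q⟩ | ⟨p, q⟩
  · have p' := cfg_bd x e he T T _ _ i p
    have q' := cfg_bd x e he T T _ _ i q
    omega
  · have p' := cfg_bd x e he T T _ _ i p
    have q' := cfg_bd x e he T T _ _ i q
    omega

lemma cfg_ne {ι : Type} [DecidableEq ι] (x : ι → Fin k → ℤ) (hx : Rob x) (e : Fin k → ℤ)
    (he : ∀ i, |e i| ≤ 1) (T T' : Finset ι) (a b : ι) (h : a ≠ b) :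
    cfg x e T a ≠ cfg x e T' b := by
  obtain ⟨i, hi | hi⟩ := hx.1 a b h
  · exact fun hh => (cfg_bd x e he T T' _ _ i hi).ne (congrFun hh i)
  · exact fun hh => (cfg_bd x e he T' T _ _ i hi).ne (congrFun hh i).symm

lemma shift {ι : Type} [Fintype ι] [Nonempty ι] (x : ι → Fin k → ℤ) (hx : Rob x)
    (e : Fin k → ℤ) (he : ∑ i, |e i| = 1) :
    Relation.TransGen Move (Set.range x) (Set.range fun a => x a + e) := by
  classical
  have he' : ∀ i, |e i| ≤ 1 := fun i => he ▸
    Finset.single_le_sum (f := fun i => |e i|) (fun j _ => abs_nonneg _) (Finset.mem_univ i)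
  have he0 : e ≠ 0 := by rintro rfl; simp at he
  have step : ∀ (T : Finset ι) (a : ι), a ∉ T →
      Move (Set.range (cfg x e T)) (Set.range (cfg x e (insert a T))) := by
    intro T a ha
    have e1 : cfg x e T a = x a := by simp [cfg, ha]
    have e2 : cfg x e (insert a T) a = x a + e := by simp [cfg]
    have e3 : ∀ b, b ≠ a → cfg x e (insert a T) b = cfg x e T b := by
      intro b hb; simp [cfg, hb]
    refine ⟨gp_cfg x hx e he' _, x a, ⟨a, e1⟩, x a + e, ?_, by simpa [d] using he, ?_⟩
    · rintro ⟨b, hb⟩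
      by_cases hab : b = a
      · subst hab
        rw [e1] at hb
        exact he0 (by simpa using hb)
      · exact cfg_ne x hx e he' T (insert a T) b a hab (hb.trans e2.symm)
    · ext y
      simp only [Set.mem_range, Set.mem_insert_iff, Set.mem_diff, Set.mem_singleton_iff]
      constructor
      · rintro ⟨b, rfl⟩
        by_cases hab : b = a
        · subst hab; exact Or.inl e2
        · refine Or.inr ⟨⟨b, (e3 b hab).symm⟩, ?_⟩
          rw [← e1]
          exact cfg_ne x hx e he' _ _ b a hab
      · rintro (rfl | ⟨⟨b, rfl⟩, hb⟩)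
        · exact ⟨a, e2⟩
        · refine ⟨b, e3 b ?_⟩
          rintro rfl
          exact hb e1
  have all : ∀ T : Finset ι, T.Nonempty →
      Relation.TransGen Move (Set.range x) (Set.range (cfg x e T)) := by
    intro T hT
    induction hT using Finset.Nonempty.cons_induction with
    | singleton a =>
      have := step ∅ a (by simp)
      have e0 : cfg x e ∅ = x := by funext b; simp [cfg]
      rw [e0] at this
      exact .single (by simpa using this)
    | cons a T ha _ ih =>
      rw [Finset.cons_eq_insert]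
      exact ih.tail (step T a ha)
  have := all Finset.univ Finset.univ_nonempty
  have e1 : cfg x e Finset.univ = fun a => x a + e := by funext b; simp [cfg]
  rwa [e1] at this

lemma rob_add {ι : Type} (x : ι → Fin k → ℤ) (hx : Rob x) (v : Fin k → ℤ) :
    Rob fun a => x a + v := by
  constructor
  · intro a b h
    obtain ⟨i, hi⟩ := hx.1 a b h
    exact ⟨i, by simp only [Pi.add_apply]; omega⟩
  · intro a b c h1 h2 h3
    obtain ⟨i, hi⟩ := hx.2 a b c h1 h2 h3
    exact ⟨i, by simp only [Pi.add_apply]; omega⟩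

lemma shift_all {ι : Type} [Fintype ι] [Nonempty ι] (x : ι → Fin k → ℤ) (hx : Rob x)
    (u v : Fin k → ℤ) :
    Relation.ReflTransGen Move (Set.range fun a => x a + u) (Set.range fun a => x a + u + v) := by
  classical
  have one : ∀ (w : Fin k → ℤ) (i : Fin k) (c : ℤ), |c| = 1 →
      Relation.ReflTransGen Move (Set.range fun a => x a + w)
        (Set.range fun a => x a + w + Pi.single i c) := by
    intro w i c hc
    refine (shift _ (rob_add x hx w) _ ?_).to_reflTransGen
    rw [Finset.sum_eq_single i]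
    · simpa using hc
    · intro j _ hj; simp [hj]
    · simp
  have sing : ∀ (i : Fin k) (c : ℤ) (w : Fin k → ℤ),
      Relation.ReflTransGen Move (Set.range fun a => x a + w)
        (Set.range fun a => x a + w + Pi.single i c) := by
    intro i c w
    induction c using Int.induction_on with
    | zero => simpa using Relation.ReflTransGen.refl
    | succ n ih =>
      have := one (w + Pi.single i (n : ℤ)) i 1 (by simp)
      simp only [← add_assoc] at this
      simpa [Pi.single_add, add_assoc] using ih.trans this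
    | pred n ih =>
      have := one (w + Pi.single i (-(n : ℤ))) i (-1) (by simp)
      simp only [← add_assoc] at this
      have h2 := ih.trans this
      simp only [sub_eq_add_neg, Pi.single_add, ← add_assoc]
      exact h2
  induction v using Pi.single_induction generalizing u with
  | zero => simpa using Relation.ReflTransGen.refl
  | add f g hf hg =>
    have h2 := hg (u + f)
    simp only [← add_assoc] at h2 ⊢
    exact (hf u).trans h2
  | single i c => exact sing i c u

lemma mobile (m : ℕ) {ι : Type} [Fintype ι] [Nonempty ι] (x : ι → Fin (m + 1) → ℤ)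
    (hx : Rob x) : Mobile (Set.range x) := by
  classical
  obtain ⟨f, hf⟩ := exists_surjective_nat (Fin (m + 1) → ℤ)
  let w : ℕ → Fin (m + 1) → ℤ := fun n => Nat.casesOn n 0 f
  have h : ∀ n, Relation.TransGen Move (Set.range fun a => x a + w n)
      (Set.range fun a => x a + w (n + 1)) := by
    intro n
    have h1 := shift _ (rob_add x hx (w n)) (Pi.single 0 1) (by
      rw [Finset.sum_eq_single 0]
      · simp
      · intro j _ hj; simp [hj]
      · simp)
    have h2 := shift_all x hx (w n + Pi.single 0 1) (w (n + 1) - (w n + Pi.single 0 1))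
    simp only [add_assoc, add_sub_cancel] at h1 h2
    exact h1.trans_left h2
  obtain ⟨s, h0, h1, h2⟩ := exists_seq Move _ h
  refine ⟨?_, s, by simpa [w] using h0, h1, fun v => ?_⟩
  · have := gp_cfg x hx 0 (by simp) ∅
    have e0 : cfg x 0 ∅ = x := by funext b; simp [cfg]
    rwa [e0] at this
  · obtain ⟨a⟩ := ‹Nonempty ι›
    obtain ⟨n, hn⟩ := hf (v - x a)
    obtain ⟨t, ht⟩ := h2 (n + 1)
    exact ⟨t, by rw [ht]; exact ⟨a, by simp [w, hn]⟩⟩

lemma dom (N c : ℕ) (hc : c < N) (u : ℕ → ℤ) (hu : ∀ j, |u j| ≤ 1) (h1 : u c = 1)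
    (h0 : ∀ j, c < j → u j = 0) : 1 ≤ ∑ j ∈ Finset.range N, u j * 2 ^ j := by
  have a : ∀ n, -(2 ^ n - 1) ≤ ∑ j ∈ Finset.range n, u j * 2 ^ j := by
    intro n
    induction n with
    | zero => simp
    | succ n ih =>
      rw [Finset.sum_range_succ, pow_succ]
      have := (abs_le.1 (hu n)).1
      have h2 : (0 : ℤ) < 2 ^ n := by positivity
      nlinarith
  rw [← Finset.sum_subset (s₁ := Finset.range (c + 1)) (by
    intro j hj; simp only [Finset.mem_range] at hj ⊢; omega) (by
    intro j _ hj; simp only [Finset.mem_range] at hj; rw [h0 j (by omega), zero_mul])]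
  rw [Finset.sum_range_succ, h1]
  have := a c
  linarith

lemma exists_rob (m : ℕ) : ∃ x : (Fin (2 ^ m) → Bool) → Fin (m + 1) → ℤ, Rob x := by
  classical
  obtain ⟨e⟩ : Nonempty (Fin (2 ^ m) ≃ (Fin m → Bool)) :=
    ⟨Fintype.equivOfCardEq (by simp)⟩
  let sg : ℕ → Fin (m + 1) → ℤ := fun j i =>
    if h : j < 2 ^ m then Fin.cases 1 (fun i => if e ⟨j, h⟩ i then 1 else -1) i else 1
  let ind : (Fin (2 ^ m) → Bool) → ℕ → ℤ := fun F j =>
    if h : j < 2 ^ m then (if F ⟨j, h⟩ then 1 else 0) else 0
  have hsg : ∀ j i, sg j i = 1 ∨ sg j i = -1 := by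
    intro j i
    simp only [sg]
    split_ifs
    · refine Fin.cases ?_ (fun i => ?_) i
      · simp
      · simp only [Fin.cases_succ]; split_ifs <;> simp
    · simp
  have hind : ∀ F j, ind F j = 0 ∨ ind F j = 1 := by
    intro F j; simp only [ind]; split_ifs <;> simp
  let x : (Fin (2 ^ m) → Bool) → Fin (m + 1) → ℤ := fun F i =>
    2 * ∑ j ∈ Finset.range (2 ^ m), ind F j * sg j i * 2 ^ j
  have key : ∀ F G, F ≠ G → ∃ c : Fin (2 ^ m), F c ≠ G c ∧
      ∀ i, 2 ≤ (ind G c - ind F c) * sg c i * (x G i - x F i) := by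
    intro F G hFG
    have hne : (Finset.univ.filter fun c => F c ≠ G c).Nonempty := by
      by_contra hh
      apply hFG
      funext c
      by_contra h2
      exact hh ⟨c, by simpa using h2⟩
    obtain ⟨c, hc, hmax⟩ := Finset.exists_max_image _ id hne
    have hc' : F c ≠ G c := by simpa using hc
    refine ⟨c, hc', fun i => ?_⟩
    have hcc : ind G c ≠ ind F c := by
      simp only [ind, c.2, dif_pos, Fin.eta]
      cases hF : F c <;> cases hG : G c <;> simp_all
    have := dom (2 ^ m) c c.2
      (fun j => (ind G c - ind F c) * sg c i * ((ind G j - ind F j) * sg j i)) (by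
        intro j
        rcases hind G c with a | a <;> rcases hind F c with b | b <;>
        rcases hind G j with a' | a' <;> rcases hind F j with b' | b' <;>
        rcases hsg c i with s | s <;> rcases hsg j i with s' | s' <;>
        simp [a, b, a', b', s, s']) (by
        rcases hind G c with a | a <;> rcases hind F c with b | b <;>
        rcases hsg c i with s | s <;> simp_all) (by
        intro j hj
        have : ind G j = ind F j := by
          simp only [ind]
          by_cases h : j < 2 ^ m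
          · have : F ⟨j, h⟩ = G ⟨j, h⟩ := by
              by_contra h2
              have : (⟨j, h⟩ : Fin (2 ^ m)) ≤ c := hmax ⟨j, h⟩ (by simpa using h2)
              exact absurd this (not_le.2 hj)
            simp [h, this]
          · simp [h]
        simp [this])
    have e2 : (ind G c - ind F c) * sg c i * (x G i - x F i) = 2 * ∑ j ∈ Finset.range (2 ^ m),
        (ind G c - ind F c) * sg c i * ((ind G j - ind F j) * sg j i) * 2 ^ j := by
      simp only [x]
      rw [← mul_sub, ← Finset.sum_sub_distrib, Finset.mul_sum, Finset.mul_sum, Finset.mul_sum]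
      refine Finset.sum_congr rfl fun j _ => by ring
    rw [e2]
    linarith
  have hv : ∀ (F : Fin (2 ^ m) → Bool) (c : Fin (2 ^ m)), ind F c = if F c then 1 else 0 := by
    intro F c; simp [ind]
  have hs0 : ∀ c : Fin (2 ^ m), sg c 0 = 1 := by intro c; simp [sg]
  have hs1 : ∀ (c : Fin (2 ^ m)) (i : Fin m), sg c i.succ = if e c i then 1 else -1 := by
    intro c i; simp [sg]
  refine ⟨x, fun F G h => ?_, fun F G H h1 h2 _ => ?_⟩
  · obtain ⟨c, hc, h⟩ := key F G h
    refine ⟨0, ?_⟩
    have := h 0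
    rw [hv, hv, hs0] at this
    cases hF : F c <;> cases hG : G c <;> simp_all <;> omega
  · obtain ⟨c, hc, p⟩ := key F G h1
    obtain ⟨c', hc', q⟩ := key G H h2
    by_cases hs : G c = G c'
    · refine ⟨0, ?_⟩
      have p0 := p 0
      have q0 := q 0
      rw [hv, hv, hs0] at p0 q0
      cases hF : F c <;> cases hG : G c <;> cases hH : H c' <;> simp_all <;> omega
    · have hcc : e c ≠ e c' := fun hh => hs (by rw [e.injective hh])
      obtain ⟨i, hi⟩ := Function.ne_iff.1 hcc
      refine ⟨i.succ, ?_⟩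
      have p0 := p i.succ
      have q0 := q i.succ
      rw [hv, hv, hs1] at p0 q0
      cases hF : F c <;> cases hG : G c <;> cases hH : H c' <;> cases hG' : G c' <;>
        cases h5 : e c i <;> cases h6 : e c' i <;> simp_all <;> omega

lemma upper (m : ℕ) (S : Set (Fin (m + 1) → ℤ)) (hS : GP S) :
    S.encard ≤ (2 ^ 2 ^ m : ℕ) := by
  classical
  let lt : (Fin (m + 1) → ℤ) → (Fin (m + 1) → ℤ) → Prop := fun a b => toLex a < toLex b
  have h0 : ∀ a b, lt a b → a 0 ≤ b 0 := by
    rintro a b ⟨i, hi, hlt⟩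
    rcases Fin.eq_zero_or_eq_succ i with rfl | ⟨j, rfl⟩
    · exact hlt.le
    · exact (hi 0 (Fin.succ_pos j)).le
  let col : (Fin (m + 1) → ℤ) → (Fin (m + 1) → ℤ) → Fin m → Bool :=
    fun a b i => decide (a i.succ ≤ b i.succ)
  let φ : (Fin (m + 1) → ℤ) → (Fin m → Bool) → Bool :=
    fun b σ => decide (∃ a ∈ S, lt a b ∧ col a b = σ)
  have key : ∀ b ∈ S, ∀ c ∈ S, lt b c → φ b ≠ φ c := by
    intro b hb c hc hbc h
    have h1 : φ c (col b c) = true := by simpa [φ] using ⟨b, hb, hbc, rfl⟩
    rw [← h] at h1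
    obtain ⟨a, ha, hab, hcol⟩ : ∃ a ∈ S, lt a b ∧ col a b = col b c := by simpa [φ] using h1
    refine hS a ha b hb c hc (fun h => hab.ne (h ▸ rfl)) (fun h => hbc.ne (h ▸ rfl))
      (fun h => (lt_trans hab hbc).ne (h ▸ rfl)) ((btw_iff _ _ _).2 fun i => ?_)
    refine Fin.cases (Or.inl ⟨h0 _ _ hab, h0 _ _ hbc⟩) (fun j => ?_) i
    have := congrFun hcol j
    simp only [col, decide_eq_decide] at this
    omega
  have inj : Set.InjOn φ S := by
    intro b hb c hc h
    rcases lt_trichotomy (toLex b) (toLex c) with h1 | h1 | h1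
    · exact absurd h (key b hb c hc h1)
    · exact h1
    · exact absurd h.symm (key c hc b hb h1)
  have := Set.encard_le_encard_of_injOn (t := Set.univ) (fun _ _ => Set.mem_univ _) inj
  refine this.trans (le_of_eq ?_)
  rw [Set.encard_univ, ENat.card_eq_coe_fintype_card]
  simp

end aux

theorem result (k : ℕ) (hk : 1 ≤ k) :
    IsGreatest {n : ℕ∞ | ∃ S : Set (Fin k → ℤ), Mobile S ∧ S.encard = n}
      ((2 ^ 2 ^ (k - 1) : ℕ) : ℕ∞) := by
  obtain ⟨m, rfl⟩ : ∃ m, k = m + 1 := ⟨k - 1, by omega⟩
  simp only [Nat.add_sub_cancel]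
  constructor
  · obtain ⟨x, hx⟩ := exists_rob m
    refine ⟨Set.range x, mobile m x hx, ?_⟩
    have inj : Function.Injective x := by
      intro a b h
      by_contra hab
      obtain ⟨i, hi⟩ := hx.1 a b hab
      rw [h] at hi
      omega
    rw [← Set.image_univ, inj.encard_image, Set.encard_univ, ENat.card_eq_coe_fintype_card]
    simp
  · rintro _ ⟨S, hS, rfl⟩
    exact upper m S hS.1

end Pool.Agent.Results.MP_903b9e_co.Mob
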